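import Pool.Agent.K9h27.PK.Lat
import Pool.Agent.R965.ST.Top
import Pool.Agent.Y995.TP.FastTop

/-!
Thin times: many cells of thin times, lower bound for the dimension (adaptation of
`Pool.Agent.R965.ST.Slow` and `Pool.Agent.Y995.TP.FastL`).
-/

set_option autoImplicit false
set_option linter.unusedVariables false

namespace Pool.Agent.K9h27.TN

open H974 Finset H342P H984P H984N Pool.Agent.Y995.FS Pool.Agent.Y995.HG
open Pool.Agent.K9h27.PK (SPairsI BadP badP_open LatP lat_p)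
open Pool.Agent.Y995.TP (cell Ubi cells_in ubi_gen cantor bulk_arc kf kf_ge kf_low kf_up hf hf_pos
  hf_lim hf_small tf tf_pos EF_le wEF_lim pr_small lin_exp)
open MeasureTheory Filter Topology
open scoped ENNReal NNReal

/-- thin times at scale `w` -/
def Nk (w τ2 : ℝ) (p : X) : Set ℝ :=
  Subtype.val '' {u : unitInterval |
    p.2 * (volume {v : unitInterval | dist (p.1 v) (p.1 u) ≤ w / 4}).toReal ≤ τ2}

/-- cells of thin times inside a piece -/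
theorem thin_cells {R : Rect} {p : X} (hp : 0 < p.2) {ρ w τ τ2 h : ℝ} {N : ℕ} (hN : 0 < N)
    (hw : 0 < w) (hτ : 0 < τ) (hbad : p ∉ BadP R ρ w (5 / 4 * w) τ τ2 h N) {a b l : ℝ}
    (ha : 0 ≤ a) (hab : a ≤ b) (hb : b ≤ 1)
    (hdep : ∀ u : unitInterval, a ≤ u → (u : ℝ) ≤ b → ρ < dep R (p.1 u))
    (hlen : h < p.2 * (b - a)) (hl : 0 < l) {n : ℕ}
    (hn : (n : ℝ) + 2 ≤ τ / p.2 / l) :
    ∃ Q : Finset ℕ, Q.card = n ∧ ∀ k ∈ Q, cell l k ⊆ Set.Icc a b ∩ Nk w τ2 p := by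
  obtain ⟨s, hs⟩ : ∃ s : unitInterval, s = ⟨a, ha, hab.trans hb⟩ := ⟨_, rfl⟩
  obtain ⟨t, ht⟩ : ∃ t : unitInterval, t = ⟨b, ha.trans hab, hb⟩ := ⟨_, rfl⟩
  have hsv : (s : ℝ) = a := by rw [hs]
  have htv : (t : ℝ) = b := by rw [ht]
  have hz : SPairsI p.1 p.2 w (5 / 4 * w) τ τ2 N s t := by
    by_contra hcon
    apply hbad
    refine ⟨s, t, fun u h1 h2 => ?_, ?_, hcon⟩
    · refine hdep u ?_ ?_
      · rw [← hsv]; exact h1
      · rw [← htv]; exact h2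
    · rw [hsv, htv]; exact hlen
  obtain ⟨u, v, h1, -, h2⟩ := hz
  obtain ⟨g1, g2, g3⟩ := h1 ⟨0, hN⟩
  obtain ⟨⟨g4, g6⟩, g5⟩ := h2 ⟨0, hN⟩
  obtain ⟨x, hx⟩ : ∃ x, x = u ⟨0, hN⟩ := ⟨_, rfl⟩
  obtain ⟨y, hy⟩ : ∃ y, y = v ⟨0, hN⟩ := ⟨_, rfl⟩
  rw [← hx] at g1 g2 g4 g5 g6
  rw [← hy] at g2 g3 g4 g5
  have g1' : (s : ℝ) ≤ x := g1
  have g2' : (x : ℝ) ≤ y := g2
  have g3' : (y : ℝ) ≤ t := g3
  have hball : ∀ z : unitInterval, x ≤ z → z ≤ y → dist (p.1 x) (p.1 z) ≤ w := by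
    intro z hz1 hz2
    have h3 := g4 z
    rwa [min_eq_left hz2, max_eq_right hz1] at h3
  obtain ⟨Q, hQc, hQ⟩ := cells_in hl (V := Set.Icc (x:ℝ) y) (a := x) (b := y)
    (v := τ / p.2) subset_rfl x.2.1 (by
      rw [Real.volume_Icc, ENNReal.toReal_ofReal (by linarith), div_le_iff₀ hp]
      linarith) n hn
  refine ⟨Q, hQc, fun k hk z hz => ?_⟩
  have hzxy := (hQ k hk).1 hz
  have hza : a ≤ z := by have := hzxy.1; linarith
  have hzb : z ≤ b := by have := hzxy.2; linarith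
  refine ⟨⟨hza, hzb⟩, ⟨z, ha.trans hza, hzb.trans hb⟩, ?_, rfl⟩
  obtain ⟨z', hz'⟩ : ∃ z' : unitInterval, z' = ⟨z, ha.trans hza, hzb.trans hb⟩ := ⟨_, rfl⟩
  rw [← hz']
  have hzv : (z' : ℝ) = z := by rw [hz']
  have k3 : x ≤ z' := by show (x : ℝ) ≤ z'; rw [hzv]; exact hzxy.1
  have k4 : z' ≤ y := by show (z' : ℝ) ≤ y; rw [hzv]; exact hzxy.2
  have k5 := hball z' k3 k4
  have hsub : {v : unitInterval | dist (p.1 v) (p.1 z') ≤ w / 4} ⊆
      {v : unitInterval | dist (p.1 v) (p.1 x) ≤ 5 / 4 * w} := by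
    intro v hv
    have h6 : dist (p.1 v) (p.1 z') ≤ w / 4 := hv
    show dist (p.1 v) (p.1 x) ≤ 5 / 4 * w
    have h7 := dist_triangle (p.1 v) (p.1 z') (p.1 x)
    rw [dist_comm (p.1 z') (p.1 x)] at h7
    linarith
  have h8 := ENNReal.toReal_mono (measure_ne_top _ _) (measure_mono (μ := volume) hsub)
  have h9 := Jo_ge_vol (w := 5 / 4 * w) (by positivity) p.1 (p.1 x)
  exact (mul_le_mul_of_nonneg_left (h8.trans h9) hp.le).trans g6

theorem hp_le {K A κ q : ℝ} (hK : 1 ≤ K) (hA : 0 < A) (hκ : 0 < κ) (hq : 0 < q) (hq1 : q ≤ 1)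
    (j : ℕ) :
    hf K A q j / tf κ q j ≤ A / κ * Real.exp (4 * K * (7/4)) * (6 * (j : ℝ) + 36) ^ 2 *
      Real.exp (7/2 * (K * q) * j) := by
  have hj0 : (0:ℝ) ≤ j := Nat.cast_nonneg _
  have hk : (1:ℝ) ≤ ((kf q j : ℕ) : ℝ) := by exact_mod_cast kf_ge q j
  have hk2 : ((kf q j : ℕ) : ℝ) ≤ 6 * (j : ℝ) + 36 := by
    have := kf_up hq j
    nlinarith
  obtain ⟨k, hkd⟩ : ∃ k : ℝ, k = ((kf q j : ℕ) : ℝ) := ⟨_, rfl⟩
  have hw : 0 < (((1:ℝ)/2) ^ j) ^ (7/4 : ℝ) := by positivity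
  have h1 : Real.exp (2 * (K * ((kf q j : ℕ) : ℝ))) ^ (7/4 : ℝ) ≤
      Real.exp (4 * K * (7/4)) * Real.exp (7/2 * (K * q) * j) := by
    have h2 := Real.rpow_le_rpow (Real.exp_nonneg _) (EF_le hK hq j)
      (show (0:ℝ) ≤ 7/4 by norm_num)
    rw [Real.mul_rpow (Real.exp_nonneg _) (Real.exp_nonneg _), ← Real.exp_mul,
      ← Real.exp_mul, ← Real.exp_mul] at h2
    rw [← Real.exp_mul]
    refine h2.trans (le_of_eq ?_)
    congr 2
    ring
  rw [div_le_iff₀ (tf_pos hκ j)]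
  unfold hf tf
  rw [Real.mul_rpow (by positivity) (Real.exp_nonneg _)]
  rw [← hkd] at hk hk2 h1 ⊢
  push_cast
  have hk0 : 0 < k := by linarith
  have h3 : 1 ≤ (6 * (j : ℝ) + 36) * k ^ (-(3/4) : ℝ) := by
    have h4 : k ^ (3/4 : ℝ) ≤ k := by
      have := Real.rpow_le_rpow_of_exponent_le hk (show (3/4 : ℝ) ≤ 1 by norm_num)
      rwa [Real.rpow_one] at this
    have h5 : k ^ (3/4 : ℝ) * k ^ (-(3/4) : ℝ) = 1 := by
      rw [← Real.rpow_add hk0]; norm_num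
    have h6 : 0 < k ^ (-(3/4) : ℝ) := by positivity
    calc (1:ℝ) = k ^ (3/4 : ℝ) * k ^ (-(3/4) : ℝ) := h5.symm
      _ ≤ (6 * (j : ℝ) + 36) * k ^ (-(3/4) : ℝ) :=
        mul_le_mul_of_nonneg_right (h4.trans hk2) h6.le
  calc A * ((((((1:ℝ)/2) ^ j) ^ (7/4 : ℝ)) *
        Real.exp (2 * (K * k)) ^ (7/4 : ℝ)) * (6 * (j : ℝ) + 36))
      ≤ A * ((((((1:ℝ)/2) ^ j) ^ (7/4 : ℝ)) *
        (Real.exp (4 * K * (7/4)) * Real.exp (7/2 * (K * q) * j))) * (6 * (j : ℝ) + 36)) := by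
        gcongr
    _ = (A * Real.exp (4 * K * (7/4)) * (6 * (j : ℝ) + 36) * Real.exp (7/2 * (K * q) * j) *
        (((1:ℝ)/2) ^ j) ^ (7/4 : ℝ)) * 1 := by ring
    _ ≤ (A * Real.exp (4 * K * (7/4)) * (6 * (j : ℝ) + 36) * Real.exp (7/2 * (K * q) * j) *
        (((1:ℝ)/2) ^ j) ^ (7/4 : ℝ)) * ((6 * (j : ℝ) + 36) * k ^ (-(3/4) : ℝ)) :=
        mul_le_mul_of_nonneg_left h3 (by positivity)
    _ = _ := by field_simp

theorem starP {K A κ q : ℝ} (hK : 1 ≤ K) (hA : 0 < A) (hκ : 0 < κ) (hq : 0 < q)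
    (hKq : K * q ≤ 1/48) {c : ℝ} (hc : 0 < c) : ∀ᶠ j : ℕ in atTop,
      100 * ((c * hf K A q j) ^ (1 - (1 - 6 * (K * q))) * (hf K A q j / tf κ q j)) ≤ 1 := by
  have hKq0 : 0 < K * q := by positivity
  have hq1 : q ≤ 1 := by nlinarith
  filter_upwards [hf_small hK hA hq hKq hc, lin_exp (B := 100 * (A / κ * Real.exp (4 * K * (7/4))))
    (c := K * q) (by positivity) (by positivity), lin_exp (B := 1) (c := K * q) one_pos
    (by positivity)] with j h1 h2 h2'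
  rw [one_mul] at h2'
  have h3 : (c * hf K A q j) ^ (1 - (1 - 6 * (K * q))) ≤ Real.exp (-(6 * (K * q) * j)) := by
    have h4 := Real.rpow_le_rpow (mul_pos hc (hf_pos hA j)).le h1
      (show 0 ≤ 1 - (1 - 6 * (K * q)) by nlinarith)
    rw [← Real.exp_mul] at h4
    refine h4.trans (le_of_eq ?_)
    congr 1
    ring
  have h5 := hp_le hK hA hκ hq hq1 j
  have h6 : 0 ≤ hf K A q j / tf κ q j := (div_pos (hf_pos hA j) (tf_pos hκ j)).le
  calc 100 * ((c * hf K A q j) ^ (1 - (1 - 6 * (K * q))) * (hf K A q j / tf κ q j))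
      ≤ 100 * (Real.exp (-(6 * (K * q) * j)) * (A / κ * Real.exp (4 * K * (7/4)) *
        (6 * (j : ℝ) + 36) ^ 2 * Real.exp (7/2 * (K * q) * j))) := by
        gcongr
    _ = ((100 * (A / κ * Real.exp (4 * K * (7/4))) * (6 * (j : ℝ) + 36)) *
        (6 * (j : ℝ) + 36)) *
        (Real.exp (-(6 * (K * q) * j)) * Real.exp (7/2 * (K * q) * j)) := by ring
    _ ≤ (Real.exp (K * q * j) * Real.exp (K * q * j)) *
        (Real.exp (-(6 * (K * q) * j)) * Real.exp (7/2 * (K * q) * j)) := by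
        refine mul_le_mul_of_nonneg_right (mul_le_mul h2 h2' (by positivity)
          (Real.exp_nonneg _)) (by positivity)
    _ ≤ 1 := by
        rw [← Real.exp_add, ← Real.exp_add, ← Real.exp_add, ← Real.exp_zero]
        refine Real.exp_le_exp.2 ?_
        have : 0 ≤ K * q * j := by positivity
        linarith

/-- every interval contains many cells of thin times -/
theorem ubi_thin {R : Rect} {p : X} (hp : 0 < p.2) {K A κ θ q : ℝ} (hK : 1 ≤ K)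
    (hA : 0 < A) (hκ : 0 < κ) (hq : 0 < q) (hKq : K * q ≤ 1 / 48) {ρ : ℝ}
    (hbad : ∀ᶠ j : ℕ in atTop, p ∉ BadP R ρ ((1/2) ^ j) (5 / 4 * (1/2) ^ j) (tf κ q j) (tf θ q j)
      (hf K A q j) (6 * j + 36))
    {a b : unitInterval} (hdep : ∀ u : unitInterval, a ≤ u → u ≤ b → ρ < dep R (p.1 u)) :
    Ubi (1 - 6 * (K * q)) (fun j => Nk ((1/2) ^ j) (tf θ q j) p) a b := by
  have hKq0 : 0 < K * q := by positivity
  refine ubi_gen a.2.1 (H := fun j => 2 / p.2 * hf K A q j)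
    (r := fun j => tf κ q j / (2 * p.2)) (l0 := fun _ => 1)
    (fun j => by have := hf_pos (K := K) (q := q) hA j; positivity)
    (fun j => by have := tf_pos (q := q) hκ j; positivity)
    (fun j => one_pos) (by linarith) (by linarith) ?_ ?_ ?_
  · have := (hf_lim hK hA hq hKq).const_mul (2 / p.2)
    rwa [mul_zero] at this
  · intro L hL
    filter_upwards [starP (κ := κ) hK hA hκ hq hKq (c := 2 / p.2 / L) (by positivity)] with j hj'
    have h0 := hf_pos (K := K) (q := q) hA j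
    have h1 := tf_pos (q := q) hκ j
    refine le_trans (le_of_eq ?_) hj'
    congr 2
    · congr 1
      ring
    · field_simp
      norm_num
  · filter_upwards [hbad] with j hj' x y hax hyb hxy l hl _ n hn
    have hh := hf_pos (K := K) (q := q) hA j
    have hH0 : 0 < 2 / p.2 * hf K A q j := by positivity
    refine thin_cells hp (N := 6 * j + 36)
      (by omega) (by positivity) (tf_pos hκ j) hj' (a.2.1.trans hax) (by linarith)
      (hyb.trans b.2.2)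
      (fun u hu1 hu2 => hdep u (show (a:ℝ) ≤ u from hax.trans hu1)
        (show (u:ℝ) ≤ b from hu2.trans hyb)) ?_ hl ?_
    · rw [hxy]
      have e : p.2 * (2 / p.2 * hf K A q j) = 2 * hf K A q j := by field_simp
      rw [e]
      linarith
    · refine hn.trans (le_of_eq ?_)
      field_simp

theorem thin_low {κ θ K A0 : ℝ} (hκ : 0 < κ) (hK : 1 ≤ K) (hA0 : 1 ≤ A0)
    (hfin : ∀ R : Rect, (∀ δ : ℕ → ℝ, (∀ i, 0 < δ i) → Tendsto δ atTop (𝓝 0) →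
      ∀ μ : ProbabilityMeasure X, Tendsto (fun i => R.law (δ i)) atTop (𝓝 μ) →
      ∀ᵐ p ∂(μ : Measure X), 0 < p.2 ∧ p.1 0 = R.a ∧ p.1 1 = 0 ∧
        (∀ s : unitInterval, p.1 s ∈ closure R.D) ∧
        (∀ β : ℝ, 0 < β → β < 4/7 → ∃ Λ : ℝ, ∀ s t : unitInterval,
          dist (p.1 s) (p.1 t) ≤ Λ * |(s : ℝ) - t| ^ β) ∧
        ∀ s t : unitInterval, s < t → dimH (p.1 '' Set.Icc s t) = 7 / 4))
    {q : ℝ} (hq : 0 < q) (hKq : K * q ≤ 1 / 48) {R : Rect} {A : ℝ} (hA : 0 < A)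
    (hlat : LatP κ θ K A0 R A) {δ : ℕ → ℝ} (hδ : ∀ i, 0 < δ i) (hlim : Tendsto δ atTop (𝓝 0))
    {μ : ProbabilityMeasure X} (hμ : Tendsto (fun i => R.law (δ i)) atTop (𝓝 μ)) :
    ∀ᵐ p ∂(μ : Measure X), ∀ s t : unitInterval, s < t →
      ENNReal.ofReal (1 - 6 * (K * q)) ≤ dimH {u : unitInterval | (s ≤ u ∧ u ≤ t) ∧
        ∃ᶠ j : ℕ in atTop, p.2 * (volume {v : unitInterval |
          dist (p.1 v) (p.1 u) ≤ (1/2) ^ j / 4}).toReal ≤ tf θ q j} := by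
  have hA00 : 0 < A0 := by linarith
  have hKq0 : 0 < K * q := by positivity
  have hbc := bc R (K := 1) le_rfl (B := fun ρ j => BadP R ρ ((1/2) ^ j) (5 / 4 * (1/2) ^ j)
    (tf κ q j) (tf θ q j) (hf K A0 q j) (6 * j + 36)) (fun ρ j => badP_open R _ _ _ _ _ _ _)
    (fun ρ hρ => by
      have h1 : ∀ᶠ j : ℕ in atTop, 1 ≤ j ∧ 80 ≤ kf q j ∧
          A0 * (((1:ℝ)/2) ^ j * Real.exp (2 * (K * ((kf q j : ℕ) : ℝ)))) ≤ ρ := by
        refine (eventually_ge_atTop 1).and (?_ : ∀ᶠ j : ℕ in atTop, 80 ≤ kf q j ∧ _)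
        refine Eventually.and ?_ ?_
        · obtain ⟨n0, hn0⟩ := exists_nat_gt (80 / q)
          filter_upwards [eventually_ge_atTop n0] with j hj'
          have h2 : (n0 : ℝ) ≤ j := by exact_mod_cast hj'
          have h3 : (80 : ℝ) ≤ q * j := by
            rw [div_lt_iff₀ hq] at hn0
            nlinarith
          have h4 : (80 : ℝ) ≤ (kf q j : ℕ) := h3.trans (kf_low q j)
          exact_mod_cast h4
        · have h2 := (wEF_lim hK hq hKq).const_mul A0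
          rw [mul_zero] at h2
          exact h2.eventually (ge_mem_nhds hρ)
      rw [eventually_atTop] at h1
      obtain ⟨j1, hj1⟩ := h1
      refine ⟨A, j1, hA, fun j hj => ?_⟩
      obtain ⟨g1, g2, g3⟩ := hj1 j hj
      have hw1 : ((1:ℝ)/2) ^ j ≤ 1/2 := by
        have : ((1:ℝ)/2) ^ j ≤ (1/2) ^ 1 := pow_le_pow_of_le_one (by norm_num) (by norm_num) g1
        simpa using this
      obtain ⟨δ1, hδ1, h4⟩ := hlat (kf q j) (6 * j + 36) ((1/2) ^ j) ρ g2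
        (by omega) (by positivity) hw1 g3
      refine ⟨δ1, hδ1, fun δ hδ hδ' => ?_⟩
      exact (h4 δ hδ hδ').trans (pr_small hA j))
    hδ hlim hμ
  filter_upwards [hfin R δ hδ hlim μ hμ, hbc] with p g1 g2 s t hst
  obtain ⟨hp0, -, -, hcl, hhol, hdim⟩ := g1
  obtain ⟨a, b, i, e1, e2, e3, e4⟩ := bulk_arc hcl hdim hst
  have hU := ubi_thin hp0 hK hA00 hκ hq hKq (g2 i) e4
  have hcan := cantor (s := 1 - 6 * (K * q)) (by linarith) (by linarith)
    (show (a:ℝ) < b from e2) hU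
  refine hcan.trans ?_
  have hsub : {x : ℝ | x ∈ Set.Icc (a:ℝ) b ∧ ∃ᶠ j in atTop, x ∈ Nk ((1/2) ^ j) (tf θ q j) p} ⊆
      Subtype.val '' {u : unitInterval | (s ≤ u ∧ u ≤ t) ∧
        ∃ᶠ j : ℕ in atTop, p.2 * (volume {v : unitInterval |
          dist (p.1 v) (p.1 u) ≤ (1/2) ^ j / 4}).toReal ≤ tf θ q j} := by
    rintro x ⟨hx1, hx2⟩
    refine ⟨⟨x, a.2.1.trans hx1.1, hx1.2.trans b.2.2⟩, ⟨⟨?_, ?_⟩, ?_⟩, rfl⟩
    · exact e1.trans (show (a : ℝ) ≤ x from hx1.1)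
    · exact le_trans (show x ≤ (b : ℝ) from hx1.2) e3
    · refine hx2.mono fun j hj => ?_
      obtain ⟨v, hv1, hv2⟩ := hj
      have : v = ⟨x, a.2.1.trans hx1.1, hx1.2.trans b.2.2⟩ := Subtype.ext hv2
      rw [← this]
      exact hv1
  refine (dimH_mono hsub).trans (le_of_eq ?_)
  exact isometry_subtype_coe.dimH_image _

end Pool.Agent.K9h27.TN
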