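import Pool.Agent.K9h27.TN.Up

/-!
Thin times: the dimension of the thin times and of their images.
-/

set_option autoImplicit false
set_option linter.unusedVariables false

namespace Pool.Agent.K9h27.TN

open H974 Finset H342P H984P H984N Pool.Agent.Y995.FS Pool.Agent.Y995.HG
open Pool.Agent.K9h27.PK (LatP lat_p)
open Pool.Agent.Y995.TP (Ft tf fast_top)
open MeasureTheory Filter Topology
open scoped ENNReal NNReal

theorem thin_times : ∃ c C θ0 : ℝ, 0 < c ∧ 0 < C ∧ 0 < θ0 ∧ C / θ0 ^ (4/3 : ℝ) < 1 ∧ ∀ R : Rect,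
    (∀ δ : ℕ → ℝ, (∀ i, 0 < δ i) → Tendsto δ atTop (𝓝 0) →
      ∃ φ : ℕ → ℕ, StrictMono φ ∧ ∃ μ : ProbabilityMeasure X,
        Tendsto (fun i => R.law (δ (φ i))) atTop (𝓝 μ)) ∧
    ∀ δ : ℕ → ℝ, (∀ i, 0 < δ i) → Tendsto δ atTop (𝓝 0) → ∀ μ : ProbabilityMeasure X,
      Tendsto (fun i => R.law (δ i)) atTop (𝓝 μ) →
      ∀ᵐ p ∂(μ : Measure X), 0 < p.2 ∧ (∀ E : Set unitInterval, dimH (p.1 '' E) = 7 / 4 * dimH E) ∧
        ∀ θ : ℝ, θ0 ≤ θ → dimH (Tn θ p) ≤ ENNReal.ofReal (1 - c / θ ^ (4/3 : ℝ)) ∧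
          ∀ s t : unitInterval, s < t →
            ENNReal.ofReal (1 - C / θ ^ (4/3 : ℝ)) ≤ dimH (Set.Icc s t ∩ Tn θ p) := by
  obtain ⟨⟨c, hc, hL⟩, ⟨C, hC, hU⟩, C2, hC2, hA⟩ := Pool.Agent.Y985.ME.inputs
  obtain ⟨κ, θ2, K, A0, hκ, hθ2, hK, hA0, hlat⟩ := lat_p hc hC hL hU
  obtain ⟨c1, C1, θ1, hc1, hC1, hθ1, -, hfa⟩ := fast_top
  obtain ⟨q0, hq0⟩ : ∃ q0 : ℝ, q0 = 1 / (48 * K) := ⟨_, rfl⟩
  have hq0p : 0 < q0 := by rw [hq0]; positivity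
  have hKq0 : K * q0 = 1 / 48 := by
    rw [hq0]
    field_simp
  -- `D = 12 θ2`
  obtain ⟨D, hD⟩ : ∃ D : ℝ, D = 12 * θ2 := ⟨_, rfl⟩
  have hD0 : 0 < D := by rw [hD]; positivity
  obtain ⟨θ0, hθ0⟩ : ∃ θ0 : ℝ, θ0 = max (D / q0 ^ (3/4 : ℝ)) ((4 * θ1) ^ (-(7/4) : ℝ)) := ⟨_, rfl⟩
  have hθ01 : D / q0 ^ (3/4 : ℝ) ≤ θ0 := by rw [hθ0]; exact le_max_left _ _
  have hθ02 : (4 * θ1) ^ (-(7/4) : ℝ) ≤ θ0 := by rw [hθ0]; exact le_max_right _ _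
  have hθ00 : 0 < θ0 := lt_of_lt_of_le (by positivity) hθ01
  have hpow : ∀ θ : ℝ, θ0 ≤ θ → (D / θ) ^ (4/3 : ℝ) ≤ q0 := by
    intro θ h1
    have hθp : 0 < θ := lt_of_lt_of_le hθ00 h1
    have h3 : D / θ ≤ q0 ^ (3/4 : ℝ) := by
      have := hθ01.trans h1
      rw [div_le_iff₀ (by positivity)] at this
      rw [div_le_iff₀ hθp]
      linarith
    have h4 := Real.rpow_le_rpow (by positivity) h3 (show (0:ℝ) ≤ 4/3 by norm_num)
    rw [← Real.rpow_mul hq0p.le] at h4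
    norm_num at h4 ⊢
    exact h4
  refine ⟨c1 * (1/4) ^ (7/3 : ℝ), 12 * K * D ^ (4/3 : ℝ), θ0, by positivity, by positivity,
    hθ00, ?_, fun R => ?_⟩
  · have h1 := hpow θ0 le_rfl
    rw [Real.div_rpow hD0.le hθ00.le] at h1
    have h2 := mul_le_mul_of_nonneg_left h1 (show 0 ≤ K by linarith)
    calc 12 * K * D ^ (4/3 : ℝ) / θ0 ^ (4/3 : ℝ) = 12 * (K * (D ^ (4/3 : ℝ) / θ0 ^ (4/3 : ℝ))) := by
          ring
      _ ≤ 12 * (1/48) := by linarith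
      _ < 1 := by norm_num
  obtain ⟨h1, h2, h3⟩ := final_of hc hC hL hU hC2 hA R
  refine ⟨h2, fun δ hδ hlim μ hμ => ?_⟩
  obtain ⟨A, hA1, hlatR⟩ := hlat R
  have hfin : ∀ R : Rect, (∀ δ : ℕ → ℝ, (∀ i, 0 < δ i) → Tendsto δ atTop (𝓝 0) →
      ∀ μ : ProbabilityMeasure X, Tendsto (fun i => R.law (δ i)) atTop (𝓝 μ) →
      ∀ᵐ p ∂(μ : Measure X), 0 < p.2 ∧ p.1 0 = R.a ∧ p.1 1 = 0 ∧
        (∀ s : unitInterval, p.1 s ∈ closure R.D) ∧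
        (∀ β : ℝ, 0 < β → β < 4/7 → ∃ Λ : ℝ, ∀ s t : unitInterval,
          dist (p.1 s) (p.1 t) ≤ Λ * |(s : ℝ) - t| ^ β) ∧
        ∀ s t : unitInterval, s < t → dimH (p.1 '' Set.Icc s t) = 7 / 4) :=
    fun R => (final_of hc hC hL hU hC2 hA R).2.2
  have hlow' : ∀ᵐ p ∂(μ : Measure X), ∀ n : ℕ, ∀ s t : unitInterval, s < t →
      ENNReal.ofReal (1 - 6 * (K * (q0 * (1/2) ^ n))) ≤
        dimH {u : unitInterval | (s ≤ u ∧ u ≤ t) ∧ ∃ᶠ j : ℕ in atTop,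
          p.2 * (volume {v : unitInterval |
            dist (p.1 v) (p.1 u) ≤ (1/2) ^ j / 4}).toReal ≤ tf θ2 (q0 * (1/2) ^ n) j} := by
    rw [ae_all_iff]
    intro n
    refine thin_low hκ hK hA0 hfin (by positivity) ?_ hA1 hlatR hδ hlim hμ
    have h4 : ((1:ℝ)/2) ^ n ≤ 1 := pow_le_one₀ (by norm_num) (by norm_num)
    have h5 : q0 * (1/2) ^ n ≤ q0 := by nlinarith
    have h6 := mul_le_mul_of_nonneg_left h5 (show 0 ≤ K by linarith)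
    linarith
  filter_upwards [(hfa R).2 δ hδ hlim μ hμ, hlow'] with p g1 g2
  obtain ⟨hp0, hdim, hfap⟩ := g1
  refine ⟨hp0, hdim, fun θ hθ => ⟨?_, fun s t hst => ?_⟩⟩
  · have hθp : 0 < θ := lt_of_lt_of_le hθ00 hθ
    have h4 : 1 / 4 * θ ^ (-(4/7) : ℝ) ≤ θ1 := by
      have h5 := Real.rpow_le_rpow_of_nonpos (by positivity) (hθ02.trans hθ)
        (show (-(4/7) : ℝ) ≤ 0 by norm_num)
      rw [← Real.rpow_mul (by positivity)] at h5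
      norm_num at h5
      norm_num
      linarith
    have h5 := (hfap (1 / 4 * θ ^ (-(4/7) : ℝ)) (by positivity) h4).1
    refine (dimH_mono (thin_fast hθp hp0)).trans (h5.trans (le_of_eq ?_))
    congr 2
    rw [Real.mul_rpow (by norm_num) (by positivity), ← Real.rpow_mul hθp.le, mul_div_assoc]
    congr 2
    rw [← Real.rpow_neg hθp.le]
    norm_num
  · have hθp : 0 < θ := lt_of_lt_of_le hθ00 hθ
    obtain ⟨n, hn1, hn2⟩ := exists_nat_pow_near_of_lt_one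
      (show 0 < (D / θ) ^ (4/3 : ℝ) / q0 by positivity)
      (by rw [div_le_one hq0p]; exact hpow θ hθ) (show (0:ℝ) < 1/2 by norm_num) (by norm_num)
    obtain ⟨q, hq⟩ : ∃ q : ℝ, q = q0 * (1/2) ^ n := ⟨_, rfl⟩
    have hq0' : 0 < q := by rw [hq]; positivity
    have hx1 : (D / θ) ^ (4/3 : ℝ) ≤ q := by
      rw [div_le_iff₀ hq0p] at hn2
      rw [hq]; linarith
    have hx2 : q ≤ 2 * (D / θ) ^ (4/3 : ℝ) := by
      rw [lt_div_iff₀ hq0p, pow_succ] at hn1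
      rw [hq]; linarith
    have hx3 : 12 * θ2 ≤ θ * q ^ (3/4 : ℝ) := by
      have h4 := Real.rpow_le_rpow (by positivity) hx1 (show (0:ℝ) ≤ 3/4 by norm_num)
      rw [← Real.rpow_mul (by positivity)] at h4
      norm_num at h4
      rw [div_le_iff₀ hθp, hD] at h4
      norm_num
      linarith
    have h4 := g2 n s t hst
    rw [← hq] at h4
    refine le_trans (ENNReal.ofReal_le_ofReal ?_) (h4.trans (dimH_mono ?_))
    · have h6 := mul_le_mul_of_nonneg_left hx2 (show 0 ≤ K by linarith)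
      rw [Real.div_rpow hD0.le hθp.le] at h6
      have e2 : 12 * K * D ^ (4/3 : ℝ) / θ ^ (4/3 : ℝ) =
          6 * (K * (2 * (D ^ (4/3 : ℝ) / θ ^ (4/3 : ℝ)))) := by ring
      rw [e2]
      linarith
    · rintro u ⟨⟨u1, u2⟩, u3⟩
      exact ⟨⟨u1, u2⟩, thin_of hθ2 hq0' hθp hx3 u3⟩

end Pool.Agent.K9h27.TN
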