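import Pool.Agent.K9h27.TN.Low

/-!
Thin times are fast times.
-/

set_option autoImplicit false
set_option linter.unusedVariables false

namespace Pool.Agent.K9h27.TN

open H974 Finset H342P H984P H984N Pool.Agent.Y995.FS Pool.Agent.Y995.HG
open Pool.Agent.Y995.TP (Ft kf kf_ge kf_low kf_up tf tf_pos)
open MeasureTheory Filter Topology
open scoped ENNReal NNReal

/-- `r ^ (7/4) (log (1/r)) ^ (-3/4)` -/
noncomputable def om (r : ℝ) : ℝ := r ^ (7/4 : ℝ) / Real.log (1 / r) ^ (3/4 : ℝ)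

/-- thin times -/
def Tn (θ : ℝ) (p : X) : Set unitInterval :=
  {u | ∃ᶠ r : ℝ in 𝓝[>] 0,
    p.2 * (volume {v : unitInterval | dist (p.1 v) (p.1 u) ≤ r}).toReal ≤ θ * om r}

/-- a short time interval around a time has large volume -/
theorem vol_near {h : ℝ} (h0 : 0 < h) (h1 : h ≤ 1 / 2) (u : unitInterval) {V : Set unitInterval}
    (hV : ∀ v : unitInterval, |(v : ℝ) - u| ≤ h → v ∈ V) : h ≤ (volume V).toReal := by
  rcases le_total (u : ℝ) (1/2) with hu2 | hu2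
  · obtain ⟨z, hz⟩ : ∃ z : unitInterval, z = ⟨u + h, by have := u.2.1; linarith, by
      linarith⟩ := ⟨_, rfl⟩
    have hzv : (z : ℝ) = u + h := by rw [hz]
    have hsub : Set.Icc u z ⊆ V := by
      intro v hv
      have a1 : (u : ℝ) ≤ v := hv.1
      have a2 : (v : ℝ) ≤ z := hv.2
      refine hV v ?_
      rw [abs_of_nonneg (by linarith)]
      linarith
    have g4 := ENNReal.toReal_mono (measure_ne_top _ _) (measure_mono (μ := volume) hsub)
    rw [unitInterval.volume_Icc, ENNReal.toReal_ofReal (by linarith)] at g4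
    linarith
  · obtain ⟨z, hz⟩ : ∃ z : unitInterval, z = ⟨u - h, by linarith, by
      have := u.2.2; linarith⟩ := ⟨_, rfl⟩
    have hzv : (z : ℝ) = u - h := by rw [hz]
    have hsub : Set.Icc z u ⊆ V := by
      intro v hv
      have a1 : (z : ℝ) ≤ v := hv.1
      have a2 : (v : ℝ) ≤ u := hv.2
      refine hV v ?_
      rw [abs_sub_comm, abs_of_nonneg (by linarith)]
      linarith
    have g4 := ENNReal.toReal_mono (measure_ne_top _ _) (measure_mono (μ := volume) hsub)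
    rw [unitInterval.volume_Icc, ENNReal.toReal_ofReal (by linarith)] at g4
    linarith

/-- Thin times are fast times. -/
theorem thin_fast {θ : ℝ} (hθ : 0 < θ) {p : X} (hp : 0 < p.2) :
    Tn θ p ⊆ Ft (1 / 4 * θ ^ (-(4/7) : ℝ)) p := by
  intro u hu
  obtain ⟨M, hM⟩ : ∃ M : ℝ, M = 2 * |Real.log (1 / (2 * θ))| + 1 := ⟨_, rfl⟩
  have habs := abs_nonneg (Real.log (1 / (2 * θ)))
  have hpos : ∀ᶠ r : ℝ in 𝓝[>] 0, 0 < r ∧ r ≤ Real.exp (-M) := by
    filter_upwards [self_mem_nhdsWithin, (eventually_lt_nhds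
      (Real.exp_pos (-M))).filter_mono nhdsWithin_le_nhds] with h h1 h2
    exact ⟨h1, h2.le⟩
  have hL : ∀ r : ℝ, 0 < r → r ≤ Real.exp (-M) → M ≤ Real.log (1 / r) := by
    intro r h1 h2
    have := Real.log_le_log h1 h2
    rw [Real.log_exp] at this
    rw [one_div, Real.log_inv]
    linarith
  have hle : ∀ r : ℝ, 0 < r → r ≤ Real.exp (-M) → om r ≤ r ^ (7/4 : ℝ) := by
    intro r h1 h2
    have h3 := hL r h1 h2
    have h4 : 1 ≤ Real.log (1 / r) ^ (3/4 : ℝ) := Real.one_le_rpow (by linarith) (by norm_num)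
    unfold om
    exact div_le_self (by positivity) h4
  have hom : ∀ r : ℝ, 0 < r → r ≤ Real.exp (-M) → 0 < om r := by
    intro r h1 h2
    have h3 := hL r h1 h2
    have : 0 < Real.log (1 / r) := by linarith
    unfold om
    positivity
  have h0 : Tendsto (fun r : ℝ => 2 * θ * om r) (𝓝[>] 0) (𝓝[>] 0) := by
    rw [tendsto_nhdsWithin_iff]
    constructor
    · have h1 : Tendsto (fun h : ℝ => 2 * θ * h ^ (7/4 : ℝ)) (𝓝[>] 0) (𝓝 0) := by
        have := (Pool.Agent.R965.CS.rpow_tend (show (0:ℝ) < 7/4 by norm_num)).const_mul (2 * θ)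
        rwa [mul_zero] at this
      refine squeeze_zero' ?_ ?_ h1
      · filter_upwards [hpos] with h hh
        have := hom h hh.1 hh.2
        positivity
      · filter_upwards [hpos] with h hh
        exact mul_le_mul_of_nonneg_left (hle h hh.1 hh.2) (by positivity)
    · filter_upwards [hpos] with h hh
      have := hom h hh.1 hh.2
      exact mul_pos (by positivity) this
  refine h0.frequently ?_
  have hsm : ∀ᶠ r : ℝ in 𝓝[>] 0, 2 * θ * om r < min (p.2 / 2) 1 :=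
    (h0.mono_right nhdsWithin_le_nhds).eventually
      (gt_mem_nhds (lt_min (by positivity) one_pos))
  refine (hu.and_eventually (hpos.and hsm)).mono ?_
  rintro r ⟨h1, ⟨h2, h3⟩, h4⟩
  have h5 := hL r h2 h3
  have h6 := hom r h2 h3
  obtain ⟨h, hh⟩ : ∃ h, h = 2 * θ * om r := ⟨_, rfl⟩
  have hh0 : 0 < h := by rw [hh]; positivity
  rw [← hh] at h4 ⊢
  have h7 : h < p.2 / 2 := h4.trans_le (min_le_left _ _)
  have h8 : h < 1 := h4.trans_le (min_le_right _ _)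
  -- there is a time at distance at least `r`
  obtain ⟨v, hv1, hv2⟩ : ∃ v : unitInterval, p.2 * |(v : ℝ) - u| ≤ h ∧
      r ≤ dist (p.1 v) (p.1 u) := by
    by_contra hcon
    push Not at hcon
    have g1 := vol_near (h := h / p.2) (by positivity) (by
      rw [div_le_iff₀ hp]; linarith) u
      (V := {v : unitInterval | dist (p.1 v) (p.1 u) ≤ r}) (fun v hv => by
        rw [le_div_iff₀ hp] at hv
        exact (hcon v (by linarith)).le)
    rw [div_le_iff₀ hp] at g1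
    have : h ≤ θ * om r := by linarith
    have : 0 < θ * om r := by positivity
    linarith
  refine ⟨v, hv1, le_trans ?_ hv2⟩
  obtain ⟨L, hLd⟩ : ∃ L, L = Real.log (1 / r) := ⟨_, rfl⟩
  rw [← hLd] at h5
  have hL1 : 1 ≤ L := by linarith
  have hL0 : 0 < L := by linarith
  have e1 : h = 2 * θ * (r ^ (7/4 : ℝ) / L ^ (3/4 : ℝ)) := by
    rw [hh]; unfold om; rw [hLd]
  have hlog : Real.log (1 / h) ≤ 3 * L := by
    have e2 : Real.log (1 / h) = Real.log (1 / (2 * θ)) + 7/4 * L + 3/4 * Real.log L := by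
      have hlr : Real.log r = -L := by rw [hLd, one_div, Real.log_inv, neg_neg]
      rw [e1, one_div, Real.log_inv, Real.log_mul (by positivity) (by positivity),
        Real.log_div (by positivity) (by positivity), Real.log_rpow h2, Real.log_rpow hL0, hlr,
        one_div, Real.log_inv]
      ring
    have h9 : Real.log L ≤ L := by
      have := Real.log_le_sub_one_of_pos hL0; linarith
    have h10 : Real.log (1 / (2 * θ)) ≤ 1/2 * L := by
      have := le_abs_self (Real.log (1 / (2 * θ)))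
      linarith
    rw [e2]
    linarith
  have hlog0 : 0 ≤ Real.log (1 / h) := by
    refine Real.log_nonneg ?_
    rw [le_div_iff₀ hh0]
    linarith
  have e3 : h ^ (4/7 : ℝ) = 2 ^ (4/7 : ℝ) * (θ ^ (4/7 : ℝ) * (r / L ^ (3/7 : ℝ))) := by
    rw [e1, Real.mul_rpow (by positivity) (by positivity), Real.mul_rpow (by norm_num) hθ.le,
      Real.div_rpow (by positivity) (by positivity), ← Real.rpow_mul h2.le, ← Real.rpow_mul hL0.le]
    norm_num
    ring
  have e4 : Real.log (1 / h) ^ (3/7 : ℝ) ≤ 3 ^ (3/7 : ℝ) * L ^ (3/7 : ℝ) := by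
    rw [← Real.mul_rpow (by norm_num) hL0.le]
    exact Real.rpow_le_rpow hlog0 hlog (by norm_num)
  have e5 : (2:ℝ) ^ (4/7 : ℝ) ≤ 2 := by
    have : (2:ℝ) ^ (4/7 : ℝ) ≤ 2 ^ (1 : ℝ) :=
      Real.rpow_le_rpow_of_exponent_le (by norm_num) (by norm_num)
    rwa [Real.rpow_one] at this
  have e6 : (3:ℝ) ^ (3/7 : ℝ) ≤ 2 := by
    have h10 : (3:ℝ) ^ (3/7 : ℝ) ≤ (2 ^ (7/3 : ℝ)) ^ (3/7 : ℝ) := by
      refine Real.rpow_le_rpow (by norm_num) ?_ (by norm_num)
      have h11 : (2:ℝ) ^ (2 : ℝ) ≤ 2 ^ (7/3 : ℝ) :=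
        Real.rpow_le_rpow_of_exponent_le (by norm_num) (by norm_num)
      have h12 : (2:ℝ) ^ (2 : ℝ) = 4 := by norm_num
      linarith
    rw [← Real.rpow_mul (by norm_num)] at h10
    norm_num at h10 ⊢
    exact h10
  have e7 : θ ^ (-(4/7) : ℝ) * θ ^ (4/7 : ℝ) = 1 := by
    rw [← Real.rpow_add hθ]; norm_num
  have hL7 : 0 < L ^ (3/7 : ℝ) := by positivity
  rw [e3]
  calc 1 / 4 * θ ^ (-(4/7) : ℝ) * (2 ^ (4/7 : ℝ) * (θ ^ (4/7 : ℝ) * (r / L ^ (3/7 : ℝ))) *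
        Real.log (1 / h) ^ (3/7 : ℝ))
      ≤ 1 / 4 * θ ^ (-(4/7) : ℝ) * (2 * (θ ^ (4/7 : ℝ) * (r / L ^ (3/7 : ℝ))) *
        (2 * L ^ (3/7 : ℝ))) := by
        have e8 : Real.log (1 / h) ^ (3/7 : ℝ) ≤ 2 * L ^ (3/7 : ℝ) :=
          e4.trans (mul_le_mul_of_nonneg_right e6 hL7.le)
        have e9 : 2 ^ (4/7 : ℝ) * (θ ^ (4/7 : ℝ) * (r / L ^ (3/7 : ℝ))) ≤
            2 * (θ ^ (4/7 : ℝ) * (r / L ^ (3/7 : ℝ))) :=
          mul_le_mul_of_nonneg_right e5 (by positivity)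
        exact mul_le_mul_of_nonneg_left (mul_le_mul e9 e8 (by positivity) (by positivity))
          (by positivity)
    _ = (θ ^ (-(4/7) : ℝ) * θ ^ (4/7 : ℝ)) * (r / L ^ (3/7 : ℝ) * L ^ (3/7 : ℝ)) := by ring
    _ = r := by rw [e7, one_mul, div_mul_cancel₀ _ hL7.ne']

/-- From the scales to thin times. -/
theorem thin_of {θ1 q θ : ℝ} (hθ1 : 0 < θ1) (hq : 0 < q)
    (hθ0 : 0 < θ) (hθ : 12 * θ1 ≤ θ * q ^ (3/4 : ℝ)) {p : X} {u : unitInterval}
    (h : ∃ᶠ j : ℕ in atTop, p.2 * (volume {v : unitInterval |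
          dist (p.1 v) (p.1 u) ≤ (1/2) ^ j / 4}).toReal ≤ tf θ1 q j) : u ∈ Tn θ p := by
  have hz : Tendsto (fun j : ℕ => ((1:ℝ)/2) ^ j / 4) atTop (𝓝[>] 0) := by
    refine tendsto_nhdsWithin_iff.2 ⟨?_, Eventually.of_forall fun i => ?_⟩
    · have h3 : Tendsto (fun i : ℕ => ((1:ℝ)/2) ^ i) atTop (𝓝 0) :=
        tendsto_pow_atTop_nhds_zero_of_lt_one (by norm_num) (by norm_num)
      have := h3.div_const 4
      rwa [zero_div] at this
    · show (0:ℝ) < ((1:ℝ)/2) ^ i / 4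
      positivity
  refine hz.frequently ?_
  refine (h.and_eventually (eventually_ge_atTop 5)).mono ?_
  rintro j ⟨h1, h2⟩
  refine h1.trans ?_
  have hj5 : (5:ℝ) ≤ j := by exact_mod_cast h2
  have hj0 : (0:ℝ) < j := by linarith
  obtain ⟨w, hw⟩ : ∃ w : ℝ, w = (1/2) ^ j := ⟨_, rfl⟩
  have hw0 : 0 < w := by rw [hw]; positivity
  have hlw : Real.log w = -(j * Real.log 2) := by
    rw [hw, Real.log_pow, one_div, Real.log_inv]; ring
  have hlog : Real.log (1 / (w / 4)) = (j + 2) * Real.log 2 := by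
    have h4 : Real.log 4 = 2 * Real.log 2 := by
      rw [show (4:ℝ) = 2 ^ 2 by norm_num, Real.log_pow]; norm_num
    rw [one_div, Real.log_inv, Real.log_div (by positivity) (by norm_num), hlw, h4]
    ring
  have hlog1 : Real.log (1 / (w / 4)) ≤ j := by
    rw [hlog]
    have := Real.log_two_lt_d9
    nlinarith
  have hlog0 : 0 < Real.log (1 / (w / 4)) := by
    rw [hlog]
    have := Real.log_two_gt_d9
    positivity
  have hk : q * j ≤ ((kf q j : ℕ) : ℝ) := kf_low q j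
  have h12 : (4:ℝ) ^ (7/4 : ℝ) ≤ 12 := by
    have h4 : (4:ℝ) ^ (7/4 : ℝ) = (4 ^ (7 : ℝ)) ^ (1/4 : ℝ) := by
      rw [← Real.rpow_mul (by norm_num)]; norm_num
    have h5 : (12:ℝ) = (12 ^ (4 : ℝ)) ^ (1/4 : ℝ) := by
      rw [← Real.rpow_mul (by norm_num)]; norm_num
    rw [h4, h5]
    refine Real.rpow_le_rpow (by positivity) ?_ (by norm_num)
    norm_num
  have h5 : ((kf q j : ℕ) : ℝ) ^ (-(3/4) : ℝ) ≤ 1 / (q ^ (3/4 : ℝ) * (j : ℝ) ^ (3/4 : ℝ)) := by
    have h6 := Real.rpow_le_rpow_of_nonpos (show 0 < q * j by positivity) hk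
      (show (-(3/4) : ℝ) ≤ 0 by norm_num)
    rw [Real.rpow_neg (show 0 ≤ q * (j:ℝ) by positivity), Real.mul_rpow hq.le hj0.le] at h6
    rw [one_div]
    exact h6
  have h6 : Real.log (1 / (w / 4)) ^ (3/4 : ℝ) ≤ (j : ℝ) ^ (3/4 : ℝ) :=
    Real.rpow_le_rpow hlog0.le hlog1 (by norm_num)
  have hq3 : 0 < q ^ (3/4 : ℝ) := by positivity
  have hj3 : 0 < (j : ℝ) ^ (3/4 : ℝ) := by positivity
  have hw3 : 0 < w ^ (7/4 : ℝ) := by positivity
  unfold tf om
  rw [← hw, Real.div_rpow hw0.le (by norm_num)]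
  have hl3 : 0 < Real.log (1 / (w / 4)) ^ (3/4 : ℝ) := by positivity
  calc θ1 * (((kf q j : ℕ) : ℝ) ^ (-(3/4) : ℝ) * w ^ (7/4 : ℝ))
      ≤ θ1 * (1 / (q ^ (3/4 : ℝ) * (j : ℝ) ^ (3/4 : ℝ)) * w ^ (7/4 : ℝ)) := by gcongr
    _ = (12 * θ1) * (w ^ (7/4 : ℝ) / 12 / (j : ℝ) ^ (3/4 : ℝ)) / q ^ (3/4 : ℝ) := by field_simp
    _ ≤ (θ * q ^ (3/4 : ℝ)) * (w ^ (7/4 : ℝ) / 12 / (j : ℝ) ^ (3/4 : ℝ)) / q ^ (3/4 : ℝ) := by
        gcongr
    _ = θ * (w ^ (7/4 : ℝ) / 12 / (j : ℝ) ^ (3/4 : ℝ)) := by field_simp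
    _ ≤ θ * (w ^ (7/4 : ℝ) / 4 ^ (7/4 : ℝ) / Real.log (1 / (w / 4)) ^ (3/4 : ℝ)) := by
        gcongr

end Pool.Agent.K9h27.TN
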